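import Pool.Agent.X175.Mix.Ctrl

/-!
# Bernoulli products in the group algebra

Helper file for the mixability theorem (MP_892d82_al).
-/

set_option autoImplicit false

open Filter Topology

namespace Pool.Agent.X175.Mix

variable {G : Type*} [Group G]

/-- the Bernoulli factor `(1 - p) e + p g` in the real group algebra -/
noncomputable def bern (g : G) (p : ℝ) : MonoidAlgebra ℝ G :=
  (1 - p) • (1 : MonoidAlgebra ℝ G) + p • MonoidAlgebra.of ℝ G g

/-- the set of all finite products of Bernoulli factors with `p ∈ [0,1]` -/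
noncomputable def S (G : Type*) [Group G] : Submonoid (MonoidAlgebra ℝ G) :=
  Submonoid.closure {a | ∃ (g : G) (p : ℝ), 0 ≤ p ∧ p ≤ 1 ∧ a = bern g p}

theorem bern_mem (g : G) {p : ℝ} (h0 : 0 ≤ p) (h1 : p ≤ 1) : bern g p ∈ S G :=
  Submonoid.subset_closure ⟨g, p, h0, h1, rfl⟩

section simple

variable {L : Type*} [AddCommGroup L] [Module ℝ L] [Module (MonoidAlgebra ℝ G) L]
  [IsScalarTower ℝ (MonoidAlgebra ℝ G) L]

theorem bern_smul (g : G) (p : ℝ) (v : L) :
    bern g p • v = v + p • (MonoidAlgebra.of ℝ G g • v - v) := by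
  rw [bern, add_smul, smul_assoc, smul_assoc, one_smul, sub_smul, one_smul, smul_sub]
  abel

theorem mem_span_orbit (x : L) (a : MonoidAlgebra ℝ G) :
    a • x ∈ Submodule.span ℝ (Set.range fun g : G => MonoidAlgebra.of ℝ G g • x) := by
  induction a using MonoidAlgebra.induction_on with
  | of g => exact Submodule.subset_span ⟨g, rfl⟩
  | add a b ha hb => rw [add_smul]; exact add_mem ha hb
  | smul r a ha => rw [smul_assoc]; exact Submodule.smul_mem _ _ ha

theorem simple_ctrl [Fintype G] [FiniteDimensional ℝ L] [IsSimpleModule (MonoidAlgebra ℝ G) L]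
    (h0 : ∀ x : L, ∑ g : G, MonoidAlgebra.of ℝ G g • x = 0) (hdim : 1 < Module.finrank ℝ L)
    (x y : L) (hx : x ≠ 0) (hy : y ≠ 0) :
    ∃ X ∈ S G, ∃ c : ℝ, 0 < c ∧ y = c • (X • x) := by
  classical
  have hcomm : SMulCommClass (MonoidAlgebra ℝ G) ℝ L := IsScalarTower.to_smulCommClass'
  let b : L ≃ₗ[ℝ] (Fin (Module.finrank ℝ L) → ℝ) := (Module.finBasis ℝ L).equivFun
  let T : G → L →ₗ[ℝ] L := fun g => Algebra.lsmul ℝ ℝ L (MonoidAlgebra.of ℝ G g)
  have hT : ∀ g v, T g v = MonoidAlgebra.of ℝ G g • v := fun g v => rfl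
  let ρ : G → (Fin (Module.finrank ℝ L) → ℝ) →L[ℝ] (Fin (Module.finrank ℝ L) → ℝ) := fun g =>
    LinearMap.toContinuousLinearMap (b.toLinearMap ∘ₗ T g ∘ₗ b.symm.toLinearMap)
  have hρ : ∀ g v, ρ g v = b (MonoidAlgebra.of ℝ G g • b.symm v) := fun g v => rfl
  let P : (Fin (Module.finrank ℝ L) → ℝ) → (Fin (Module.finrank ℝ L) → ℝ) → Prop := fun z w =>
    ∃ X ∈ S G, ∃ c : ℝ, 0 < c ∧ b.symm w = c • (X • b.symm z)
  have hrun : ∀ (l : List G) (p : G → ℝ) (z : Fin (Module.finrank ℝ L) → ℝ),
      b.symm (runList ρ l p z) = (l.map fun g => bern g (p g)).prod • b.symm z := by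
    intro l p z
    induction l with
    | nil => simp [runList]
    | cons g l ih =>
      have e1 : runList ρ (g :: l) p z =
          runList ρ l p z + p g • (ρ g (runList ρ l p z) - runList ρ l p z) := rfl
      rw [e1, map_add, map_smul, map_sub, hρ, b.symm_apply_apply, List.map_cons, List.prod_cons,
        mul_smul, ← ih, bern_smul]
  have main := global_ctrl ρ (E := Fin (Module.finrank ℝ L) → ℝ) ?_ ?_ ?_ P ?_ ?_ (b x) (b y)
    (by simpa using hx) (by simpa using hy)
  · obtain ⟨X, hX, c, hc, h⟩ := main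
    refine ⟨X, hX, c, hc, ?_⟩
    simpa using h
  · intro z
    simp only [hρ]
    rw [← map_sum, h0, map_zero]
  · intro z hz
    have hz' : b.symm z ≠ 0 := by simpa using hz
    rw [eq_top_iff]
    intro w _
    obtain ⟨a, ha⟩ := IsSimpleModule.toSpanSingleton_surjective (MonoidAlgebra ℝ G) hz' (b.symm w)
    have ha' : a • b.symm z = b.symm w := ha
    have h1 := mem_span_orbit (b.symm z) a
    rw [ha'] at h1
    have h2 := Submodule.mem_map_of_mem (f := b.toLinearMap) h1
    rw [Submodule.map_span] at h2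
    have h3 : (b.toLinearMap (b.symm w)) = w := b.apply_symm_apply w
    rw [h3] at h2
    have h4 : (b.toLinearMap '' Set.range fun g : G => MonoidAlgebra.of ℝ G g • b.symm z) =
        Set.range fun g => ρ g z := by
      ext v
      simp [Set.mem_range, hρ]
    rwa [h4] at h2
  · simpa using hdim
  · intro c hc p hp z
    refine ⟨((Finset.univ.toList : List G).map fun g => bern g (p g)).prod, ?_, c, hc, ?_⟩
    · apply Submonoid.list_prod_mem
      intro a ha
      obtain ⟨g, _, rfl⟩ := List.mem_map.1 ha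
      exact bern_mem g (hp g).1.le (hp g).2.le
    · rw [map_smul, hrun]
  · rintro u v w ⟨X, hX, c, hc, h⟩ ⟨Y, hY, d, hd, h'⟩
    refine ⟨Y * X, mul_mem hY hX, d * c, mul_pos hd hc, ?_⟩
    rw [h', h, smul_comm Y c, mul_smul, mul_smul]

end simple

/-- the sum of all group elements -/
noncomputable def N0 (G : Type*) [Group G] [Fintype G] : MonoidAlgebra ℝ G :=
  ∑ g : G, MonoidAlgebra.of ℝ G g

theorem N0_mul_of [Fintype G] (h : G) : N0 G * MonoidAlgebra.of ℝ G h = N0 G := by
  rw [N0, Finset.sum_mul]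
  simp only [← map_mul]
  exact Fintype.sum_equiv (Equiv.mulRight h) _ _ (fun g => rfl)

theorem of_mul_N0 [Fintype G] (h : G) : MonoidAlgebra.of ℝ G h * N0 G = N0 G := by
  rw [N0, Finset.mul_sum]
  simp only [← map_mul]
  exact Fintype.sum_equiv (Equiv.mulLeft h) _ _ (fun g => rfl)

theorem N0_comm [Fintype G] (a : MonoidAlgebra ℝ G) : N0 G * a = a * N0 G := by
  induction a using MonoidAlgebra.induction_on with
  | of g => rw [N0_mul_of, of_mul_N0]
  | add a b ha hb => rw [mul_add, add_mul, ha, hb]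
  | smul r a ha => rw [mul_smul_comm, smul_mul_assoc, ha]

/-- the augmentation ideal -/
noncomputable def I0 (G : Type*) [Group G] [Fintype G] :
    Submodule (MonoidAlgebra ℝ G) (MonoidAlgebra ℝ G) where
  carrier := {x | N0 G * x = 0}
  zero_mem' := by simp
  add_mem' := by
    intro a b ha hb
    have ha' : N0 G * a = 0 := ha
    have hb' : N0 G * b = 0 := hb
    show N0 G * (a + b) = 0
    rw [mul_add, ha', hb', add_zero]
  smul_mem' := by
    intro c x hx
    have hx' : N0 G * x = 0 := hx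
    show N0 G * (c • x) = 0
    rw [smul_eq_mul, ← mul_assoc, N0_comm, mul_assoc, hx', mul_zero]

theorem mem_I0 [Fintype G] {x : MonoidAlgebra ℝ G} : x ∈ I0 G ↔ N0 G * x = 0 := Iff.rfl

/-- a group is `2'`-simple if it has no proper normal subgroup of odd index -/
def TwoPrimeSimple (G : Type*) [Group G] : Prop :=
  ∀ N : Subgroup G, N.Normal → Odd N.index → N = ⊤

/-- some element of a `2'`-simple group has eigenvalue `-1` on every nontrivial simple submodule -/
theorem exists_neg [Fintype G] (hG : TwoPrimeSimple G)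
    (L : Submodule (MonoidAlgebra ℝ G) (MonoidAlgebra ℝ G)) (hL : L ≤ I0 G)
    (hL0 : ∃ x ∈ L, x ≠ 0) :
    ∃ g : G, ∃ y ∈ L, y ≠ 0 ∧ MonoidAlgebra.of ℝ G g * y = -y := by
  classical
  let N : Subgroup G :=
    { carrier := {g | ∀ x ∈ L, MonoidAlgebra.of ℝ G g * x = x}
      one_mem' := by intro x _; rw [map_one, one_mul]
      mul_mem' := by
        intro a b ha hb x hx
        rw [map_mul, mul_assoc, hb x hx, ha x hx]
      inv_mem' := by
        intro a ha x hx
        have h1 : MonoidAlgebra.of ℝ G a⁻¹ * (MonoidAlgebra.of ℝ G a * x) = x := by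
          rw [← mul_assoc, ← map_mul, inv_mul_cancel, map_one, one_mul]
        rw [ha x hx] at h1
        exact h1 }
  have hN : N.Normal := by
    constructor
    intro n hn g x hx
    have h1 : MonoidAlgebra.of ℝ G g⁻¹ * x ∈ L := L.smul_mem _ hx
    rw [map_mul, map_mul, mul_assoc, mul_assoc, hn _ h1, ← mul_assoc, ← map_mul, mul_inv_cancel,
      map_one, one_mul]
  have hNtop : N ≠ ⊤ := by
    intro h
    obtain ⟨x, hx, hx0⟩ := hL0
    have h1 : N0 G * x = 0 := hL hx
    rw [N0, Finset.sum_mul] at h1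
    have h2 : ∀ g : G, MonoidAlgebra.of ℝ G g * x = x := by
      intro g
      have : g ∈ N := by rw [h]; trivial
      exact this x hx
    simp only [h2, Finset.sum_const, Finset.card_univ] at h1
    rw [← Nat.cast_smul_eq_nsmul ℝ, smul_eq_zero] at h1
    rcases h1 with h1 | h1
    · have : (Fintype.card G : ℝ) ≠ 0 := by exact_mod_cast Fintype.card_ne_zero
      exact this h1
    · exact hx0 h1
  have hev : 2 ∣ Nat.card (G ⧸ N) := by
    by_contra h
    have : Odd N.index := by
      rw [← Nat.not_even_iff_odd, even_iff_two_dvd]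
      exact h
    exact hNtop (hG N hN this)
  obtain ⟨q, hq⟩ := exists_prime_orderOf_dvd_card' 2 hev
  obtain ⟨g, rfl⟩ := QuotientGroup.mk_surjective q
  have hg : g ∉ N := by
    intro h
    have : ((g : G) : G ⧸ N) = 1 := (QuotientGroup.eq_one_iff g).2 h
    rw [this, orderOf_one] at hq
    norm_num at hq
  have hg2 : g * g ∈ N := by
    have : ((g : G) : G ⧸ N) ^ 2 = 1 := by rw [← hq]; exact pow_orderOf_eq_one _
    rw [← QuotientGroup.eq_one_iff, QuotientGroup.mk_mul, ← pow_two]
    exact this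
  have : ∃ x ∈ L, MonoidAlgebra.of ℝ G g * x ≠ x := by
    by_contra h
    push Not at h
    exact hg h
  obtain ⟨x, hx, hxne⟩ := this
  refine ⟨g, x - MonoidAlgebra.of ℝ G g * x, L.sub_mem hx (L.smul_mem _ hx), ?_, ?_⟩
  · rw [sub_ne_zero]; exact Ne.symm hxne
  · rw [mul_sub, ← mul_assoc, ← map_mul, hg2 x hx]
    abel

end Pool.Agent.X175.Mix
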