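import Pool.Agent.X175.Mix.Local

/-!
# Controllability of the Bernoulli semigroup

Helper file for the mixability theorem (MP_892d82_al).
-/

set_option autoImplicit false

open Filter Topology

namespace Pool.Agent.X175.Mix

variable {G : Type*} {E : Type*} [NormedAddCommGroup E] [NormedSpace ℝ E]

/-- the product of the maps `(1 - p g) + p g • ρ g`, `g` running through the list `l`, applied to
`z` -/
def runList (ρ : G → E →L[ℝ] E) (l : List G) (p : G → ℝ) (z : E) : E :=
  l.foldr (fun g v => v + p g • (ρ g v - v)) z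

/-- the derivative of `runList` at `(0, x)` -/
noncomputable def runListD [Fintype G] (ρ : G → E →L[ℝ] E) (x : E) :
    List G → ((G → ℝ) × E) →L[ℝ] E
  | [] => ContinuousLinearMap.snd ℝ (G → ℝ) E
  | g :: l => runListD ρ x l + ((ContinuousLinearMap.proj (R := ℝ) (φ := fun _ : G => ℝ) g).comp
      (ContinuousLinearMap.fst ℝ (G → ℝ) E)).smulRight (ρ g x - x)

theorem runList_zero (ρ : G → E →L[ℝ] E) (l : List G) (z : E) :
    runList ρ l (0 : G → ℝ) z = z := by
  induction l with
  | nil => rfl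
  | cons g l ih =>
    have : runList ρ (g :: l) (0 : G → ℝ) z = runList ρ l (0 : G → ℝ) z +
      (0 : G → ℝ) g • (ρ g (runList ρ l (0 : G → ℝ) z) - runList ρ l (0 : G → ℝ) z) := rfl
    rw [this, ih]; simp

theorem runListD_apply [Fintype G] (ρ : G → E →L[ℝ] E) (x : E) (l : List G) (q : G → ℝ) (ζ : E) :
    runListD ρ x l (q, ζ) = ζ + (l.map fun g => q g • (ρ g x - x)).sum := by
  induction l with
  | nil => simp [runListD]
  | cons g l ih =>
    rw [runListD, add_apply, ih]
    simp only [ContinuousLinearMap.smulRight_apply, ContinuousLinearMap.comp_apply,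
      ContinuousLinearMap.coe_fst', ContinuousLinearMap.proj_apply, List.map_cons, List.sum_cons]
    abel

theorem runList_hasStrict [Fintype G] (ρ : G → E →L[ℝ] E) (x : E) (l : List G) :
    HasStrictFDerivAt (fun q : (G → ℝ) × E => runList ρ l q.1 q.2) (runListD ρ x l) (0, x) := by
  induction l with
  | nil => exact (ContinuousLinearMap.snd ℝ (G → ℝ) E).hasStrictFDerivAt
  | cons g l ih =>
    have hT : HasStrictFDerivAt (fun q : (G → ℝ) × E => (ρ g) (runList ρ l q.1 q.2)
        - runList ρ l q.1 q.2) ((ρ g).comp (runListD ρ x l) - runListD ρ x l) (0, x) :=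
      ((ρ g).hasStrictFDerivAt.comp (0, x) ih).sub ih
    have hp : HasStrictFDerivAt (fun q : (G → ℝ) × E => q.1 g)
        ((ContinuousLinearMap.proj (R := ℝ) (φ := fun _ : G => ℝ) g).comp
          (ContinuousLinearMap.fst ℝ (G → ℝ) E)) (0, x) :=
      ((ContinuousLinearMap.proj (R := ℝ) (φ := fun _ : G => ℝ) g).comp
          (ContinuousLinearMap.fst ℝ (G → ℝ) E)).hasStrictFDerivAt
    have := ih.add (hp.smul hT)
    have h0 : runList ρ l (0 : G → ℝ) x = x := runList_zero ρ l x
    refine this.congr_fderiv ?_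
    ext v
    · simp [runListD, h0]
    · simp [runListD, h0]

/-- uniform local controllability -/
theorem local_ctrl [Fintype G] [FiniteDimensional ℝ E] (ρ : G → E →L[ℝ] E) (x : E)
    (hsum : ∑ g, ρ g x = 0) (hspan : Submodule.span ℝ (Set.range fun g => ρ g x) = ⊤) :
    ∀ᶠ y : E × E in 𝓝 (x, x), ∃ c : ℝ, 0 < c ∧ ∃ p : G → ℝ, (∀ g, 0 < p g ∧ p g < 1) ∧
      y.1 = c • runList ρ (Finset.univ.toList) p y.2 := by
  classical
  have : CompleteSpace E := FiniteDimensional.complete ℝ E
  set l : List G := Finset.univ.toList with hl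
  -- the map
  let f : ℝ × ((G → ℝ) × E) → E × E := fun q => (q.1 • runList ρ l q.2.1 q.2.2, q.2.2)
  let P1 : (ℝ × ((G → ℝ) × E)) →L[ℝ] ℝ := ContinuousLinearMap.fst ℝ ℝ ((G → ℝ) × E)
  let P2 : (ℝ × ((G → ℝ) × E)) →L[ℝ] ((G → ℝ) × E) := ContinuousLinearMap.snd ℝ ℝ ((G → ℝ) × E)
  let P3 : (ℝ × ((G → ℝ) × E)) →L[ℝ] E := (ContinuousLinearMap.snd ℝ (G → ℝ) E).comp P2
  let f' : (ℝ × ((G → ℝ) × E)) →L[ℝ] E × E :=
    (P1.smulRight x + (runListD ρ x l).comp P2).prod P3
  let a : ℝ × ((G → ℝ) × E) := (1, (0, x))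
  have hfa : f a = (x, x) := by
    simp [f, a, runList_zero]
  have hf : HasStrictFDerivAt f f' a := by
    apply HasStrictFDerivAt.prodMk
    · have h1 : HasStrictFDerivAt (fun q : ℝ × ((G → ℝ) × E) => q.1) P1 a := P1.hasStrictFDerivAt
      have h2 : HasStrictFDerivAt (fun q : ℝ × ((G → ℝ) × E) => runList ρ l q.2.1 q.2.2)
          ((runListD ρ x l).comp P2) a :=
        HasStrictFDerivAt.comp (g := fun q : (G → ℝ) × E => runList ρ l q.1 q.2) a
          (runList_hasStrict ρ x l) P2.hasStrictFDerivAt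
      have h3 := h1.smul h2
      refine h3.congr_fderiv ?_
      ext v
      · simp [a, P1, P2, runList_zero]
      · simp [a, P1, P2, runList_zero]
      · simp [a, P1, P2, runList_zero]
    · exact P3.hasStrictFDerivAt
  have hf'a : ∀ (γ : ℝ) (q : G → ℝ) (ζ : E), f' (γ, (q, ζ)) =
      (γ • x + (ζ + ∑ g, q g • (ρ g x - x)), ζ) := by
    intro γ q ζ
    have : (l.map fun g => q g • (ρ g x - x)).sum = ∑ g, q g • (ρ g x - x) := by
      rw [hl]; exact Finset.sum_map_toList _ _
    simp only [f', ContinuousLinearMap.prod_apply, add_apply,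
      ContinuousLinearMap.smulRight_apply, ContinuousLinearMap.comp_apply, P1, P2, P3,
      ContinuousLinearMap.coe_fst', ContinuousLinearMap.coe_snd', runListD_apply, this]
  have hf' : f'.range = ⊤ := by
    rw [eq_top_iff]
    rintro ⟨u, v⟩ -
    have hu : u - v ∈ Submodule.span ℝ (Set.range fun g => ρ g x) := by rw [hspan]; trivial
    obtain ⟨c, hc⟩ := (Submodule.mem_span_range_iff_exists_fun ℝ).1 hu
    refine ⟨(∑ g, c g, (c, v)), ?_⟩
    show f' (∑ g, c g, (c, v)) = (u, v)
    rw [hf'a]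
    refine Prod.ext ?_ rfl
    show (∑ g, c g) • x + (v + ∑ g, c g • (ρ g x - x)) = u
    simp only [smul_sub, Finset.sum_sub_distrib, hc, ← Finset.sum_smul]
    abel
  have hk : f' ((Fintype.card G : ℝ), ((fun _ => 1), 0)) = 0 := by
    rw [hf'a]
    refine Prod.ext ?_ rfl
    show (Fintype.card G : ℝ) • x + (0 + ∑ g : G, (1 : ℝ) • (ρ g x - x)) = 0
    simp only [one_smul, Finset.sum_sub_distrib, hsum, Finset.sum_const, Finset.card_univ]
    rw [Nat.cast_smul_eq_nsmul]
    abel
  let ψ : G → (ℝ × ((G → ℝ) × E)) →L[ℝ] ℝ := fun g =>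
    (ContinuousLinearMap.proj (R := ℝ) (φ := fun _ : G => ℝ) g).comp
      ((ContinuousLinearMap.fst ℝ (G → ℝ) E).comp P2)
  have hψa : ∀ g (γ : ℝ) (q : G → ℝ) (ζ : E), ψ g (γ, (q, ζ)) = q g := fun g γ q ζ => rfl
  let U : Set (ℝ × ((G → ℝ) × E)) := {q | 0 < q.1} ∩ ⋂ g : G, {q | ψ g q < 1}
  have hU : IsOpen U := by
    apply IsOpen.inter
    · exact isOpen_lt continuous_const continuous_fst
    · apply isOpen_iInter_of_finite
      intro g
      exact isOpen_lt (ψ g).continuous continuous_const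
  have haU : a ∈ U := by
    refine ⟨by simp [a], Set.mem_iInter.2 fun g => ?_⟩
    show ψ g a < 1
    simp [a, hψa]
  have key := pos_local_surj hf hf' hk ψ (fun g => by rw [hψa]; norm_num) U hU haU
  rw [hfa] at key
  filter_upwards [key] with y hy
  obtain ⟨⟨c, q, ζ⟩, hqU, hqy, hqpos⟩ := hy
  have h1 : c • runList ρ l q ζ = y.1 := congrArg Prod.fst hqy
  have h2 : ζ = y.2 := congrArg Prod.snd hqy
  refine ⟨c, hqU.1, q, fun g => ⟨?_, ?_⟩, ?_⟩
  · have := hqpos g
    have e1 : ψ g ((c, (q, ζ)) - a) = q g := by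
      simp only [a, Prod.mk_sub_mk, hψa]; simp
    rwa [e1] at this
  · exact Set.mem_iInter.1 hqU.2 g
  · rw [← h1, ← h2]

/-- global controllability: any transitive relation containing the one-step relations connects any
two nonzero vectors. -/
theorem global_ctrl [Fintype G] [FiniteDimensional ℝ E] (ρ : G → E →L[ℝ] E)
    (hsum : ∀ x, ∑ g, ρ g x = 0)
    (hspan : ∀ x, x ≠ 0 → Submodule.span ℝ (Set.range fun g => ρ g x) = ⊤)
    (hdim : 1 < Module.finrank ℝ E) (P : E → E → Prop)
    (hstep : ∀ (c : ℝ), 0 < c → ∀ p : G → ℝ, (∀ g, 0 < p g ∧ p g < 1) → ∀ z,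
      P z (c • runList ρ (Finset.univ.toList) p z))
    (htrans : ∀ x y z, P x y → P y z → P x z) (x y : E) (hx : x ≠ 0) (hy : y ≠ 0) : P x y := by
  have hconn : IsPreconnected ({0}ᶜ : Set E) := by
    apply (isConnected_compl_singleton_of_one_lt_rank _ (0 : E)).isPreconnected
    rw [← Module.finrank_eq_rank]
    exact_mod_cast hdim
  refine hconn.induction₂' P ?_ (fun a b c _ _ _ => htrans a b c) hx hy
  intro z hz
  have hz' : z ≠ 0 := hz
  have key := local_ctrl ρ z (hsum z) (hspan z hz')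
  have key2 : ∀ᶠ y : E × E in 𝓝 (z, z), P y.2 y.1 := by
    filter_upwards [key] with y hy
    obtain ⟨c, hc, p, hp, h⟩ := hy
    rw [h]
    exact hstep c hc p hp _
  have hA : ∀ᶠ w in 𝓝 z, P z w := by
    have : Tendsto (fun w : E => ((w, z) : E × E)) (𝓝 z) (𝓝 (z, z)) :=
      (continuous_id.prodMk continuous_const).tendsto z
    exact this.eventually key2
  have hB : ∀ᶠ w in 𝓝 z, P w z := by
    have : Tendsto (fun w : E => ((z, w) : E × E)) (𝓝 z) (𝓝 (z, z)) :=
      (continuous_const.prodMk continuous_id).tendsto z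
    exact this.eventually key2
  exact (hA.and hB).filter_mono nhdsWithin_le_nhds

end Pool.Agent.X175.Mix
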