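import Pool.Agent.X175.Mix.Main

/-!
# Mixability: the law of a random subproduct

Definitions and the two directions of the main theorem for MP_892d82_al.
-/

set_option autoImplicit false

namespace Pool.Agent.X175.Mix

variable {G : Type*} [Group G]

open Classical in
/-- The law of the random product `g 0 ^ ε 0 * ... * g (k-1) ^ ε (k-1)`, where the `ε i` are
independent Bernoulli variables with `P(ε i = 1) = p i`: the probability that the product equals
`x`. -/
noncomputable def law {k : ℕ} (g : Fin k → G) (p : Fin k → ℝ) (x : G) : ℝ :=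
  ∑ ε : Fin k → Bool, if (List.ofFn fun i => if ε i then g i else 1).prod = x then
    ∏ i, (if ε i then p i else 1 - p i) else 0

/-- A finite group is mixable if some random product `g 0 ^ ε 0 * ... * g (k-1) ^ ε (k-1)` with
independent Bernoulli exponents (with arbitrary parameters in `[0,1]`) is exactly uniformly
distributed on the group. -/
def Mixable (G : Type*) [Group G] [Fintype G] : Prop :=
  ∃ (k : ℕ) (g : Fin k → G) (p : Fin k → ℝ), (∀ i, 0 ≤ p i ∧ p i ≤ 1) ∧
    ∀ x : G, law g p x = 1 / (Fintype.card G : ℝ)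

theorem prod_bern {k : ℕ} (g : Fin k → G) (p : Fin k → ℝ) :
    (List.ofFn fun i => bern (g i) (p i)).prod =
      ∑ ε : Fin k → Bool, (∏ i, (if ε i then p i else 1 - p i)) •
        MonoidAlgebra.of ℝ G ((List.ofFn fun i => if ε i then g i else 1).prod) := by
  induction k with
  | zero => simp [MonoidAlgebra.one_def]
  | succ k ih =>
    rw [List.ofFn_succ, List.prod_cons, ih, ← (Fin.consEquiv (fun _ => Bool)).sum_comp,
      Fintype.sum_prod_type, Fintype.sum_bool]
    simp only [Fin.consEquiv_apply, List.ofFn_succ, List.prod_cons, Fin.prod_univ_succ,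
      Fin.cons_zero, Fin.cons_succ, if_true, Bool.false_eq_true, if_false, one_mul, map_mul]
    rw [bern, add_mul, add_comm, smul_mul_assoc, smul_mul_assoc, one_mul, Finset.mul_sum,
      Finset.smul_sum, Finset.smul_sum]
    congr 1
    · apply Finset.sum_congr rfl
      intro ε _
      rw [mul_smul_comm, smul_smul]
    · apply Finset.sum_congr rfl
      intro ε _
      rw [smul_smul]

theorem coeff_prod {k : ℕ} (g : Fin k → G) (p : Fin k → ℝ) (x : G) :
    ((List.ofFn fun i => bern (g i) (p i)).prod).coeff x = law g p x := by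
  classical
  rw [prod_bern, MonoidAlgebra.coeff_sum, Finsupp.finsetSum_apply, law]
  apply Finset.sum_congr rfl
  intro ε _
  rw [MonoidAlgebra.coeff_smul_apply, MonoidAlgebra.of_apply, MonoidAlgebra.coeff_single,
    Finsupp.single_apply, smul_eq_mul]
  split_ifs <;> simp

theorem coeff_N0 [Fintype G] (x : G) : (N0 G).coeff x = 1 := by
  classical
  rw [N0, MonoidAlgebra.coeff_sum, Finsupp.finsetSum_apply]
  simp only [MonoidAlgebra.of_apply, MonoidAlgebra.coeff_single, Finsupp.single_apply]
  simp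

theorem exists_list {a : MonoidAlgebra ℝ G} (ha : a ∈ S G) :
    ∃ l : List (G × ℝ), (∀ b ∈ l, 0 ≤ b.2 ∧ b.2 ≤ 1) ∧ (l.map fun b => bern b.1 b.2).prod = a := by
  induction ha using Submonoid.closure_induction with
  | mem x hx =>
    obtain ⟨g, p, h0, h1, rfl⟩ := hx
    refine ⟨[(g, p)], ?_, by simp⟩
    intro b hb
    rw [List.mem_singleton] at hb
    subst hb
    exact ⟨h0, h1⟩
  | one => exact ⟨[], by simp, rfl⟩
  | mul x y _ _ hx hy =>
    obtain ⟨l1, h1, rfl⟩ := hx
    obtain ⟨l2, h2, rfl⟩ := hy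
    refine ⟨l1 ++ l2, ?_, by rw [List.map_append, List.prod_append]⟩
    intro b hb
    rcases List.mem_append.1 hb with hb | hb
    · exact h1 b hb
    · exact h2 b hb

/-- **Every finite 2'-simple group is mixable.** -/
theorem mixable_of_twoPrimeSimple [Fintype G] (hG : TwoPrimeSimple G) : Mixable G := by
  obtain ⟨l, hl, hprod⟩ := exists_list (uniform_mem hG)
  refine ⟨l.length, fun i => (l.get i).1, fun i => (l.get i).2, fun i => hl _ (l.get_mem i), ?_⟩
  intro x
  rw [← coeff_prod]
  have h1 : (List.ofFn fun i => bern (l.get i).1 (l.get i).2) = l.map fun b => bern b.1 b.2 := by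
    conv_rhs => rw [← List.ofFn_get l]
    rw [List.map_ofFn]
    rfl
  rw [h1, hprod, MonoidAlgebra.coeff_smul_apply, coeff_N0, smul_eq_mul, mul_one, one_div]

/-- in a group of odd order the Bernoulli factors are left cancellable -/
theorem bern_cancel {Q : Type*} [Group Q] [Finite Q] (hQ : Odd (Nat.card Q)) (q : Q) {p : ℝ}
    (h0 : 0 ≤ p) (h1 : p ≤ 1) (z : MonoidAlgebra ℝ Q) (hz : bern q p * z = 0) : z = 0 := by
  have hn : Odd (orderOf q) := hQ.of_dvd_nat (orderOf_dvd_natCard q)
  set n := orderOf q with hnn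
  have hcomm : Commute ((1 - p) • (1 : MonoidAlgebra ℝ Q)) (-(p • MonoidAlgebra.of ℝ Q q)) := by
    apply Commute.neg_right
    apply Commute.smul_left
    exact Commute.one_left _
  have h2 := hcomm.geom_sum₂_mul n
  have h3 : (1 - p) • (1 : MonoidAlgebra ℝ Q) - -(p • MonoidAlgebra.of ℝ Q q) = bern q p := by
    rw [sub_neg_eq_add]; rfl
  have h4 : ((1 - p) • (1 : MonoidAlgebra ℝ Q)) ^ n - (-(p • MonoidAlgebra.of ℝ Q q)) ^ n =
      ((1 - p) ^ n + p ^ n) • (1 : MonoidAlgebra ℝ Q) := by
    rw [hn.neg_pow, sub_neg_eq_add, smul_pow, smul_pow, one_pow, ← map_pow, hnn,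
      pow_orderOf_eq_one, map_one, add_smul]
  rw [h3, h4] at h2
  have h5 : ((1 - p) ^ n + p ^ n) • z = 0 := by
    have := congrArg (· * z) h2
    simp only [smul_mul_assoc, one_mul] at this
    rw [← this, mul_assoc, hz, mul_zero]
  have hpos : 0 < (1 - p) ^ n + p ^ n := by
    rcases h0.eq_or_lt with h | h
    · rw [← h]
      have : (0 : ℝ) ≤ 0 ^ n := by positivity
      have h' : ((1 : ℝ) - 0) ^ n = 1 := by simp
      linarith
    · have : 0 ≤ (1 - p) ^ n := pow_nonneg (by linarith) _
      have := pow_pos h n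
      linarith
  rcases smul_eq_zero.1 h5 with h | h
  · exact absurd h hpos.ne'
  · exact h

/-- **Mixable groups are 2'-simple** (the easy, known direction). -/
theorem twoPrimeSimple_of_mixable [Fintype G] (h : Mixable G) : TwoPrimeSimple G := by
  classical
  intro N hN hodd
  obtain ⟨k, g, p, hp, hlaw⟩ := h
  have hprod : (List.ofFn fun i => bern (g i) (p i)).prod = ((Fintype.card G : ℝ)⁻¹) • N0 G := by
    have : ((List.ofFn fun i => bern (g i) (p i)).prod).coeff =
        (((Fintype.card G : ℝ)⁻¹) • N0 G).coeff := by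
      ext x
      rw [coeff_prod, hlaw, MonoidAlgebra.coeff_smul_apply, coeff_N0, smul_eq_mul, mul_one, one_div]
    exact MonoidAlgebra.coeff_injective this
  let φ : MonoidAlgebra ℝ G →ₐ[ℝ] MonoidAlgebra ℝ (G ⧸ N) :=
    MonoidAlgebra.lift ℝ (MonoidAlgebra ℝ (G ⧸ N)) G
      ((MonoidAlgebra.of ℝ (G ⧸ N)).comp (QuotientGroup.mk' N))
  have hφ : ∀ x : G, φ (MonoidAlgebra.of ℝ G x) = MonoidAlgebra.of ℝ (G ⧸ N) (x : G ⧸ N) := by
    intro x
    simp [φ]
  have hφb : ∀ (x : G) (r : ℝ), φ (bern x r) = bern (x : G ⧸ N) r := by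
    intro x r
    rw [bern, map_add, map_smul, map_smul, map_one, hφ, bern]
  have hQ : Odd (Nat.card (G ⧸ N)) := hodd
  -- everything in the quotient is trivial
  have key : ∀ x : G, x ∈ N := by
    intro x
    have h1 : N0 G * (MonoidAlgebra.of ℝ G x - 1) = 0 := by
      rw [mul_sub, N0_mul_of, mul_one, sub_self]
    have h2 : (List.ofFn fun i => bern (g i) (p i)).prod * (MonoidAlgebra.of ℝ G x - 1) = 0 := by
      rw [hprod, smul_mul_assoc, h1, smul_zero]
    have h3 : φ (List.ofFn fun i => bern (g i) (p i)).prod *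
        (MonoidAlgebra.of ℝ (G ⧸ N) (x : G ⧸ N) - 1) = 0 := by
      have := congrArg φ h2
      rwa [map_mul, map_sub, map_one, hφ, map_zero] at this
    have h4 : ∀ (l : List (MonoidAlgebra ℝ G)), (∀ a ∈ l, ∃ (y : G) (r : ℝ), 0 ≤ r ∧ r ≤ 1 ∧
        a = bern y r) → ∀ z : MonoidAlgebra ℝ (G ⧸ N), φ l.prod * z = 0 → z = 0 := by
      intro l
      induction l with
      | nil =>
        intro _ z hz
        rwa [List.prod_nil, map_one, one_mul] at hz
      | cons a l ih =>
        intro hl z hz
        obtain ⟨y, r, hr0, hr1, rfl⟩ := hl _ (List.mem_cons_self)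
        rw [List.prod_cons, map_mul, hφb, mul_assoc] at hz
        exact ih (fun a ha => hl a (List.mem_cons_of_mem _ ha)) z
          (bern_cancel hQ _ hr0 hr1 _ hz)
    have h5 := h4 (List.ofFn fun i => bern (g i) (p i)) (by
      intro a ha
      rw [List.mem_ofFn] at ha
      obtain ⟨i, rfl⟩ := ha
      exact ⟨g i, p i, (hp i).1, (hp i).2, rfl⟩) _ h3
    rw [sub_eq_zero, ← map_one (MonoidAlgebra.of ℝ (G ⧸ N))] at h5
    have h6 : (x : G ⧸ N) = 1 := MonoidAlgebra.of_injective h5
    exact (QuotientGroup.eq_one_iff x).1 h6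
  rw [eq_top_iff]
  intro x _
  exact key x

end Pool.Agent.X175.Mix
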