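import Mathlib

/-!
# Local surjectivity with positive parameters

Helper file for the mixability theorem (MP_892d82_al).
-/

set_option autoImplicit false

open Filter Topology

namespace Pool.Agent.X175.Mix

/-- If `f` is strictly differentiable at `a` with surjective derivative, and the kernel of the
derivative contains a vector `k` on which finitely many functionals `ψ i` are positive, then every
value close to `f a` is attained at a point `x` near `a` with all `ψ i (x - a)` positive. -/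
theorem pos_local_surj {E F : Type*} [NormedAddCommGroup E] [NormedSpace ℝ E] [CompleteSpace E]
    [NormedAddCommGroup F] [NormedSpace ℝ F] [FiniteDimensional ℝ F] {f : E → F} {f' : E →L[ℝ] F}
    {a : E} (hf : HasStrictFDerivAt f f' a) (hf' : f'.range = ⊤) {k : E} (hk : f' k = 0)
    {ι : Type*} [Finite ι] (ψ : ι → E →L[ℝ] ℝ) (hψ : ∀ i, 0 < ψ i k) (U : Set E) (hU : IsOpen U)
    (haU : a ∈ U) :
    ∀ᶠ y in 𝓝 (f a), ∃ x ∈ U, f x = y ∧ ∀ i, 0 < ψ i (x - a) := by
  set e := hf.implicitToOpenPartialHomeomorph f f' hf' with he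
  let kk : f'.ker := ⟨k, hk⟩
  have hbase : e.symm (f a, 0) = a := hf.implicitFunction_apply_image hf'
  have htar0 : ((f a, 0) : F × f'.ker) ∈ e.target :=
    hf.mem_implicitToOpenPartialHomeomorph_target hf'
  have hcont : Tendsto (fun ε : ℝ => ((f a, ε • kk) : F × f'.ker)) (𝓝 0) (𝓝 (f a, 0)) := by
    have : ContinuousAt (fun ε : ℝ => ((f a, ε • kk) : F × f'.ker)) 0 := by fun_prop
    simpa [ContinuousAt] using this
  have htar : ∀ᶠ q in 𝓝 ((f a, 0) : F × f'.ker), q ∈ e.target := e.open_target.mem_nhds htar0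
  have heq : ∀ᶠ q in 𝓝 ((f a, 0) : F × f'.ker), f (e.symm q) = q.1 :=
    hf.map_implicitFunction_eq hf'
  have heq2 := heq.eventually_nhds
  have hsd : HasStrictFDerivAt (hf.implicitFunction f f' hf' (f a)) f'.ker.subtypeL 0 :=
    hf.to_implicitFunction hf'
  have hd : HasDerivAt (fun ε : ℝ => e.symm (f a, ε • kk)) k 0 := by
    have h1 : HasDerivAt (fun ε : ℝ => ε • kk) kk 0 := by
      simpa using (hasDerivAt_id (0 : ℝ)).smul_const kk
    have h2 : HasFDerivAt (hf.implicitFunction f f' hf' (f a)) f'.ker.subtypeL ((0 : ℝ) • kk) := by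
      simpa using hsd.hasFDerivAt
    have := h2.comp_hasDerivAt (0 : ℝ) h1
    exact this
  have hpos : ∀ i, ∀ᶠ ε in 𝓝[>] (0 : ℝ), 0 < ψ i (e.symm (f a, ε • kk) - a) := by
    intro i
    have h3 : HasDerivAt (fun ε : ℝ => ψ i (e.symm (f a, ε • kk) - a)) (ψ i k) 0 :=
      (ψ i).hasFDerivAt.comp_hasDerivAt (0 : ℝ) (hd.sub_const a)
    have h4 := (hasDerivAt_iff_tendsto_slope_zero.1 h3)
    have h5 : ∀ᶠ t in 𝓝[≠] (0 : ℝ), 0 < t⁻¹ • (ψ i (e.symm (f a, (0 + t) • kk) - a)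
        - ψ i (e.symm (f a, (0 : ℝ) • kk) - a)) := h4.eventually (lt_mem_nhds (hψ i))
    have h6 : ∀ᶠ t in 𝓝[>] (0 : ℝ), 0 < t⁻¹ • (ψ i (e.symm (f a, (0 + t) • kk) - a)
        - ψ i (e.symm (f a, (0 : ℝ) • kk) - a)) :=
      h5.filter_mono (nhdsWithin_mono _ (fun x hx => ne_of_gt hx))
    filter_upwards [h6, self_mem_nhdsWithin] with t ht ht0
    have ht0' : 0 < t := ht0
    have e0 : e.symm (f a, (0 : ℝ) • kk) - a = 0 := by
      rw [zero_smul, hbase, sub_self]
    rw [e0, map_zero, sub_zero, zero_add, smul_eq_mul] at ht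
    exact (pos_iff_pos_of_mul_pos ht).1 (inv_pos.2 ht0')
  have hUe : ∀ᶠ ε in 𝓝[>] (0 : ℝ), e.symm (f a, ε • kk) ∈ U := by
    have h7 : ContinuousAt (fun ε : ℝ => e.symm (f a, ε • kk)) 0 := hd.continuousAt
    have h8 : ∀ᶠ ε in 𝓝 (0 : ℝ), e.symm (f a, ε • kk) ∈ U := by
      apply h7.eventually_mem
      apply hU.mem_nhds
      simpa [hbase] using haU
    exact h8.filter_mono nhdsWithin_le_nhds
  have hT : ∀ᶠ ε in 𝓝[>] (0 : ℝ), ((f a, ε • kk) : F × f'.ker) ∈ e.target :=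
    (hcont.eventually htar).filter_mono nhdsWithin_le_nhds
  have hQ : ∀ᶠ ε in 𝓝[>] (0 : ℝ), ∀ᶠ q in 𝓝 ((f a, ε • kk) : F × f'.ker), f (e.symm q) = q.1 :=
    (hcont.eventually heq2).filter_mono nhdsWithin_le_nhds
  obtain ⟨ε, ⟨h1, h2⟩, h3, h4⟩ :=
    (((eventually_all.2 hpos).and hUe).and (hT.and hQ)).exists
  have hc : ContinuousAt (fun y : F => e.symm (y, ε • kk)) (f a) := by
    have h9 : ContinuousAt e.symm ((f a, ε • kk) : F × f'.ker) := e.continuousAt_symm h3
    have h10 : ContinuousAt (fun y : F => ((y, ε • kk) : F × f'.ker)) (f a) := by fun_prop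
    exact ContinuousAt.comp (f := fun y : F => ((y, ε • kk) : F × f'.ker)) h9 h10
  have hW : IsOpen (U ∩ ⋂ i, {x | 0 < ψ i (x - a)}) := by
    apply hU.inter
    apply isOpen_iInter_of_finite
    intro i
    exact isOpen_lt continuous_const ((ψ i).continuous.comp (continuous_id.sub continuous_const))
  have hW0 : e.symm (f a, ε • kk) ∈ (U ∩ ⋂ i, {x | 0 < ψ i (x - a)}) :=
    ⟨h2, Set.mem_iInter.2 h1⟩
  have hE1 : ∀ᶠ y in 𝓝 (f a), e.symm (y, ε • kk) ∈ (U ∩ ⋂ i, {x | 0 < ψ i (x - a)}) :=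
    hc.eventually_mem (hW.mem_nhds hW0)
  have hE2 : ∀ᶠ y in 𝓝 (f a), f (e.symm (y, ε • kk)) = y := by
    have h10 : Tendsto (fun y : F => ((y, ε • kk) : F × f'.ker)) (𝓝 (f a)) (𝓝 (f a, ε • kk)) := by
      have : ContinuousAt (fun y : F => ((y, ε • kk) : F × f'.ker)) (f a) := by fun_prop
      exact this
    exact h10.eventually h4
  filter_upwards [hE1, hE2] with y hy1 hy2
  exact ⟨_, hy1.1, hy2, fun i => Set.mem_iInter.1 hy1.2 i⟩

end Pool.Agent.X175.Mix
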