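import Pool.Agent.X175.Mix.Alg

/-!
# Every finite 2'-simple group is mixable

Helper file for MP_892d82_al.
-/

set_option autoImplicit false

open Filter Topology

namespace Pool.Agent.X175.Mix

variable {G : Type*} [Group G]

/-- a product that does not kill the augmentation ideal can be improved -/
theorem improve [Fintype G] (hG : TwoPrimeSimple G) {M : MonoidAlgebra ℝ G} (hM : M ∈ S G)
    (h : ∃ x ∈ I0 G, M * x ≠ 0) :
    ∃ M' ∈ S G, (∀ x, M * x = 0 → M' * x = 0) ∧ ∃ x, M' * x = 0 ∧ M * x ≠ 0 := by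
  classical
  have hne : NeZero (Nat.card G : ℝ) := ⟨by exact_mod_cast Nat.card_pos.ne'⟩
  -- a simple left ideal not killed by `M`
  have hL : ∃ L : Submodule (MonoidAlgebra ℝ G) (MonoidAlgebra ℝ G),
      IsSimpleModule (MonoidAlgebra ℝ G) L ∧ L ≤ I0 G ∧ ∃ u ∈ L, M * u ≠ 0 := by
    by_contra hcon
    push Not at hcon
    obtain ⟨x, hx, hMx⟩ := h
    apply hMx
    have hx' : x ∈ sSup {m : Submodule (MonoidAlgebra ℝ G) (MonoidAlgebra ℝ G) |
        IsSimpleModule (MonoidAlgebra ℝ G) m ∧ m ≤ I0 G} := by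
      rw [IsSemisimpleModule.sSup_simples_le (I0 G)]; exact hx
    rw [sSup_eq_iSup'] at hx'
    refine Submodule.iSup_induction _ (motive := fun x => M * x = 0) hx' ?_ ?_ ?_
    · rintro ⟨m, hm1, hm2⟩ y hy
      exact hcon m hm1 hm2 y hy
    · exact mul_zero _
    · intro a b ha hb
      rw [mul_add, ha, hb, add_zero]
  obtain ⟨L, hLs, hLI, u, hu, hMu⟩ := hL
  have hw : M * u ∈ L := L.smul_mem M hu
  have hfin : FiniteDimensional ℝ L := by
    have hA : FiniteDimensional ℝ (MonoidAlgebra ℝ G) := inferInstance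
    exact Module.Finite.of_injective (L.subtype.restrictScalars ℝ) (Submodule.injective_subtype L)
  obtain ⟨g, y, hy, hy0, hgy⟩ := exists_neg hG L hLI ⟨M * u, hw, hMu⟩
  have he : bern g (1 / 2) * y = 0 := by
    have : bern g (1 / 2) * y = bern g (1 / 2) • y := rfl
    rw [this, bern_smul, smul_eq_mul, hgy]
    have h2 : -y - y = (-2 : ℝ) • y := by rw [neg_smul, two_smul]; abel
    rw [h2, smul_smul]
    norm_num
  have heS : bern g (1 / 2) ∈ S G := bern_mem g (by norm_num) (by norm_num)
  -- reach `y` from `M * u`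
  have hreach : ∃ X ∈ S G, ∃ c : ℝ, c ≠ 0 ∧ y = c • (X * (M * u)) := by
    by_cases hdim : 1 < Module.finrank ℝ L
    · have h0 : ∀ x : L, ∑ g : G, MonoidAlgebra.of ℝ G g • x = 0 := by
        intro x
        apply Subtype.ext
        have h1 : N0 G * (x : MonoidAlgebra ℝ G) = 0 := hLI x.2
        rw [N0, Finset.sum_mul] at h1
        rw [Submodule.coe_sum]
        simpa using h1
      obtain ⟨X, hX, c, hc, hyX⟩ := simple_ctrl (L := L) h0 hdim ⟨M * u, hw⟩ ⟨y, hy⟩
        (by simpa using hMu) (by simpa using hy0)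
      refine ⟨X, hX, c, hc.ne', ?_⟩
      have := congrArg (Subtype.val) hyX
      simpa using this
    · -- one-dimensional case
      have hle : Module.finrank ℝ L ≤ 1 := not_lt.1 hdim
      obtain ⟨v, hv⟩ := finrank_le_one_iff.1 hle
      obtain ⟨c1, hc1⟩ := hv ⟨M * u, hw⟩
      obtain ⟨c2, hc2⟩ := hv ⟨y, hy⟩
      have e1 : c1 • (v : MonoidAlgebra ℝ G) = M * u := congrArg Subtype.val hc1
      have e2 : c2 • (v : MonoidAlgebra ℝ G) = y := congrArg Subtype.val hc2
      have hc10 : c1 ≠ 0 := by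
        rintro rfl
        rw [zero_smul] at e1
        exact hMu e1.symm
      have hc20 : c2 ≠ 0 := by
        rintro rfl
        rw [zero_smul] at e2
        exact hy0 e2.symm
      refine ⟨1, one_mem _, c2 / c1, div_ne_zero hc20 hc10, ?_⟩
      rw [one_mul, ← e1, ← e2, smul_smul, div_mul_cancel₀ _ hc10]
  obtain ⟨X, hX, c, hc, hyX⟩ := hreach
  refine ⟨bern g (1 / 2) * (X * M), mul_mem heS (mul_mem hX hM), ?_, u, ?_, hMu⟩
  · intro x hx
    rw [mul_assoc, mul_assoc, hx, mul_zero, mul_zero]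
  · have h1 : bern g (1 / 2) * (c • (X * (M * u))) = 0 := by rw [← hyX]; exact he
    rw [mul_smul_comm, smul_eq_zero] at h1
    rcases h1 with h1 | h1
    · exact absurd h1 hc
    · rw [mul_assoc, mul_assoc]; exact h1

theorem exists_kill [Fintype G] (hG : TwoPrimeSimple G) :
    ∃ M ∈ S G, ∀ x ∈ I0 G, M * x = 0 := by
  classical
  have hA : FiniteDimensional ℝ (MonoidAlgebra ℝ G) := inferInstance
  have key : ∀ n : ℕ, ∀ M ∈ S G,
      Module.finrank ℝ (MonoidAlgebra ℝ G) -
        Module.finrank ℝ (LinearMap.ker (LinearMap.mulLeft ℝ M)) = n →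
      ∃ M ∈ S G, ∀ x ∈ I0 G, M * x = 0 := by
    intro n
    induction n using Nat.strong_induction_on with
    | _ n ih =>
      intro M hM hn
      by_cases h : ∃ x ∈ I0 G, M * x ≠ 0
      · obtain ⟨M', hM', h1, x, hx1, hx2⟩ := improve hG hM h
        have hlt : LinearMap.ker (LinearMap.mulLeft ℝ M) < LinearMap.ker (LinearMap.mulLeft ℝ M') := by
          refine lt_of_le_of_ne ?_ ?_
          · intro z hz
            exact h1 z hz
          · intro heq
            have : x ∈ LinearMap.ker (LinearMap.mulLeft ℝ M) := by rw [heq]; exact hx1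
            exact hx2 this
        have h2 := Submodule.finrank_lt_finrank_of_lt hlt
        have h3 : Module.finrank ℝ (LinearMap.ker (LinearMap.mulLeft ℝ M')) ≤
            Module.finrank ℝ (MonoidAlgebra ℝ G) := Submodule.finrank_le _
        exact ih _ (by omega) M' hM' rfl
      · push Not at h
        exact ⟨M, hM, h⟩
  exact key _ 1 (one_mem _) rfl

theorem mul_N0_of_mem [Fintype G] {M : MonoidAlgebra ℝ G} (hM : M ∈ S G) : M * N0 G = N0 G := by
  induction hM using Submonoid.closure_induction with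
  | mem x hx =>
    obtain ⟨g, p, _, _, rfl⟩ := hx
    rw [bern, add_mul, smul_mul_assoc, smul_mul_assoc, one_mul, of_mul_N0, ← add_smul]
    simp
  | one => exact one_mul _
  | mul x y _ _ hx hy => rw [mul_assoc, hy, hx]

/-- the uniform element is a product of Bernoulli factors -/
theorem uniform_mem [Fintype G] (hG : TwoPrimeSimple G) :
    ((Fintype.card G : ℝ)⁻¹) • N0 G ∈ S G := by
  obtain ⟨M, hM, h⟩ := exists_kill hG
  have h1 : ∀ g : G, M * MonoidAlgebra.of ℝ G g = M := by
    intro g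
    have h2 : MonoidAlgebra.of ℝ G g - 1 ∈ I0 G := by
      show N0 G * (MonoidAlgebra.of ℝ G g - 1) = 0
      rw [mul_sub, N0_mul_of, mul_one, sub_self]
    have h3 := h _ h2
    rw [mul_sub, mul_one, sub_eq_zero] at h3
    exact h3
  have h2 : M * N0 G = (Fintype.card G : ℝ) • M := by
    rw [N0, Finset.mul_sum]
    simp only [h1, Finset.sum_const, Finset.card_univ]
    rw [Nat.cast_smul_eq_nsmul]
  have h3 := mul_N0_of_mem hM
  have hc : (Fintype.card G : ℝ) ≠ 0 := by exact_mod_cast Fintype.card_ne_zero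
  have h4 : M = ((Fintype.card G : ℝ)⁻¹) • N0 G := by
    rw [← h3, h2, smul_smul, inv_mul_cancel₀ hc, one_smul]
  rw [← h4]
  exact hM

end Pool.Agent.X175.Mix
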